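import Pool.Agent.Q120.FA.Stm

/-! Project FA (helper120), job AR: one arc -/

set_option autoImplicit false

namespace Pool.Agent.Q151.FA

open MeasureTheory Filter Topology Set
open scoped ENNReal
open Pool.Agent.Q120.FA

lemma ps_abs (x : ℝ) : |ps x| ≤ 1 := by
  unfold ps
  have h1 := Int.fract_nonneg x
  have h2 := Int.fract_lt_one x
  rw [abs_le]
  constructor <;> linarith

lemma ps_meas : Measurable ps := by
  unfold ps
  fun_prop

lemma S_abs (D : ℕ) (t : ℝ) : |S D t| ≤ D := by
  unfold S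
  refine (Finset.abs_sum_le_sum_abs _ _).trans ?_
  refine (Finset.sum_le_sum fun d _ => ps_abs _).trans ?_
  simp

lemma S_meas (D : ℕ) : Measurable (S D) := by
  have h := ps_meas
  unfold S
  exact Finset.measurable_fun_sum _ fun d _ => h.comp (measurable_const.mul measurable_id)

lemma G_meas (K : ℕ) (b : ℕ → ℝ) (N : ℕ) : Measurable (G K b N) := by
  unfold G
  exact Finset.measurable_fun_sum _ fun m _ => (S_meas (N / m)).const_mul _

lemma G_abs (K : ℕ) (b : ℕ → ℝ) (N : ℕ) (t : ℝ) :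
    |G K b N t| ≤ (∑ m ∈ Finset.Icc 1 K, |b m|) * N := by
  unfold G
  refine (Finset.abs_sum_le_sum_abs _ _).trans ?_
  rw [Finset.sum_mul]
  refine Finset.sum_le_sum fun m _ => ?_
  rw [abs_mul]
  refine mul_le_mul_of_nonneg_left ((S_abs _ _).trans ?_) (abs_nonneg _)
  exact_mod_cast Nat.div_le_self N m

/-- JOB FA-AR -/
theorem t_AR (hMA : J_MA) : J_AR := by
  intro p K b q a x1 x2 hp hq ha hx
  have hq0 : (0 : ℝ) < q := by exact_mod_cast hq
  have hp0 : 0 < p := by linarith
  have e1 : ∀ᶠ N : ℕ in atTop, 1 / (q : ℝ) * (∫ x in x1..x2, (|G K b N ((a : ℝ) / q + x / (q * N))| / N) ^ p) =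
      (∫ t in ((a : ℝ) / q + x1 / (q * N))..((a : ℝ) / q + x2 / (q * N)),
        |G K b N t| ^ p) / (N : ℝ) ^ (p - 1) := by
    filter_upwards [eventually_ge_atTop 1] with N hN
    have hN0 : (0 : ℝ) < N := by exact_mod_cast hN
    have h1 := intervalIntegral.integral_comp_add_div (a := x1) (b := x2) (fun t => |G K b N t| ^ p)
      (mul_pos hq0 hN0).ne' ((a : ℝ) / q)
    rw [smul_eq_mul] at h1
    have h2 : ∫ x in x1..x2, (|G K b N ((a : ℝ) / q + x / (q * N))| / N) ^ p =
        (∫ x in x1..x2, |G K b N ((a : ℝ) / q + x / (q * N))| ^ p) * ((N : ℝ) ^ p)⁻¹ := by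
      rw [← intervalIntegral.integral_mul_const]
      refine intervalIntegral.integral_congr fun x _ => ?_
      rw [Real.div_rpow (abs_nonneg _) hN0.le, div_eq_mul_inv]
    rw [h2, h1, Real.rpow_sub_one hN0.ne']
    have h3 : (N : ℝ) ^ p ≠ 0 := (Real.rpow_pos_of_pos hN0 p).ne'
    field_simp
  refine Tendsto.congr' e1 ?_
  have e2 : 1 / (q : ℝ) ^ (p + 1) * ∫ x in x1..x2, |g K b x| ^ p =
      1 / (q : ℝ) * ∫ x in x1..x2, (|1 / (q : ℝ) * g K b x|) ^ p := by
    have h2 : ∫ x in x1..x2, (|1 / (q : ℝ) * g K b x|) ^ p = (∫ x in x1..x2, |g K b x| ^ p) * ((q : ℝ) ^ p)⁻¹ := by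
      rw [← intervalIntegral.integral_mul_const]
      refine intervalIntegral.integral_congr fun x _ => ?_
      rw [abs_mul, abs_of_pos (by positivity : (0 : ℝ) < 1 / q), Real.mul_rpow (by positivity) (abs_nonneg _),
        Real.div_rpow zero_le_one hq0.le, Real.one_rpow]
      ring
    rw [h2, Real.rpow_add_one hq0.ne']
    have h3 : (q : ℝ) ^ p ≠ 0 := (Real.rpow_pos_of_pos hq0 p).ne'
    field_simp
  rw [e2]
  refine Tendsto.const_mul _ ?_
  have hB0 : 0 ≤ ∑ m ∈ Finset.Icc 1 K, |b m| := Finset.sum_nonneg fun m _ => abs_nonneg _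
  refine intervalIntegral.tendsto_integral_filter_of_dominated_convergence
    (fun _ => (∑ m ∈ Finset.Icc 1 K, |b m|) ^ p) ?_ ?_ ?_ ?_
  · refine Eventually.of_forall fun N => Measurable.aestronglyMeasurable ?_
    have h := G_meas K b N
    have h2 : Measurable fun x : ℝ => G K b N ((a : ℝ) / q + x / (q * N)) :=
      h.comp (by fun_prop)
    exact ((h2.abs).div_const _).pow_const p
  · filter_upwards [eventually_ge_atTop 1] with N hN
    have hN0 : (0 : ℝ) < N := by exact_mod_cast hN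
    refine Eventually.of_forall fun x _ => ?_
    have h0 : 0 ≤ |G K b N ((a : ℝ) / q + x / (q * N))| / N := by positivity
    rw [Real.norm_of_nonneg (Real.rpow_nonneg h0 p)]
    refine Real.rpow_le_rpow h0 ?_ hp0.le
    rw [div_le_iff₀ hN0]
    exact G_abs K b N _
  · exact intervalIntegrable_const
  · refine Eventually.of_forall fun x _ => ?_
    have h1 : Tendsto (fun N : ℕ => G K b N ((a : ℝ) / q + x / (q * N)) / N) atTop
        (𝓝 (1 / (q : ℝ) * g K b x)) := by
      have h2 : ∀ N : ℕ, G K b N ((a : ℝ) / q + x / (q * N)) / N =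
          ∑ m ∈ Finset.Icc 1 K, b m * (S (N / m) ((a : ℝ) / q + x / (q * N)) / N) := by
        intro N
        unfold G
        rw [Finset.sum_div]
        exact Finset.sum_congr rfl fun m _ => mul_div_assoc _ _ _
      have h3 : 1 / (q : ℝ) * g K b x = ∑ m ∈ Finset.Icc 1 K, b m * (1 / q * pr (1 / (m : ℝ)) x) := by
        unfold g
        rw [Finset.mul_sum]
        exact Finset.sum_congr rfl fun m _ => by ring
      simp_rw [h2, h3]
      refine tendsto_finsetSum _ fun m hm => ?_
      exact (hMA q a m x hq ha (Finset.mem_Icc.1 hm).1).const_mul _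
    have h4 : Tendsto (fun N : ℕ => |G K b N ((a : ℝ) / q + x / (q * N)) / N|) atTop
        (𝓝 |1 / (q : ℝ) * g K b x|) := h1.abs
    have h5 := h4.rpow_const (p := p) (Or.inr hp0.le)
    refine h5.congr fun N => ?_
    rw [abs_div, abs_of_nonneg (Nat.cast_nonneg N : (0 : ℝ) ≤ N)]

end Pool.Agent.Q151.FA
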